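import Pool.Agent.Lib_helper84.TU.Defs
import Pool.Agent.Lib_helper84.TU.VB
import Pool.Agent.Lib_helper31.TU.SY
import Pool.Agent.Lib_helper41.LVBF.AFT

/-! T12, part III: the tails in the family -/

set_option autoImplicit false

namespace Pool.Agent.TU

open Pool.Agent.LEV Pool.Agent.LVB
open Pool.Agent.LK (PQ V)
open Pool.Agent.LE (xv)
open Pool.Agent.LX (Yy Aa nu dl)
open Pool.Agent.LSP (MX)
open Complex MeasureTheory Filter Topology ProbabilityTheory

/-- port of LVBF/AFT: Cauchy-Schwarz and `ls_one` -/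
theorem fam_tail : ∃ C : ℝ, 0 < C ∧ ∀ (N : ℕ) [Fact N.Prime] {ι : Type} [Fintype ι]
    (f : ι → S2 N), Function.Injective f → (∀ j, IsNew (f j)) → ∀ g : ℕ → ℝ,
    Summable (fun n : ℕ => g n ^ 2 * (1 + (n : ℝ)) ^ 4) →
    ∑ j, om (f j) * (∑' n : ℕ, la (f j) n * g n) ^ 2 ≤
      C * ∑' n : ℕ, g n ^ 2 * (1 + (n : ℝ)) ^ 4 := by
  obtain ⟨C, hC0, hC⟩ := ls_inf
  refine ⟨C, hC0, ?_⟩
  intro N _ ι _ f hinj hnew g hg
  have hN1 : (1 : ℝ) ≤ N := by exact_mod_cast (Fact.out : N.Prime).one_le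
  have hN0 : (0 : ℝ) < N := by linarith
  have key := hC N f (fun i => new_ne_zero (hnew i))
    (fun i j hij => new_orth (hnew i) (hnew j) (fun h => hij (hinj h))) g hg
  have h0 : ∀ n : ℕ, g n ^ 2 * (1 + (n : ℝ) / N) ^ 2 ≤ g n ^ 2 * (1 + (n : ℝ)) ^ 4 := by
    intro n
    apply mul_le_mul_of_nonneg_left _ (sq_nonneg _)
    have h1 : (n : ℝ) / N ≤ n := div_le_self (Nat.cast_nonneg n) hN1
    have h2 : (0 : ℝ) ≤ (n : ℝ) / N := by positivity
    calc (1 + (n : ℝ) / N) ^ 2 ≤ (1 + (n : ℝ)) ^ 2 := by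
          apply pow_le_pow_left₀ (by positivity); linarith
      _ ≤ (1 + (n : ℝ)) ^ 4 := by
          apply pow_le_pow_right₀ _ (by norm_num)
          have : (0 : ℝ) ≤ n := Nat.cast_nonneg n
          linarith
  have h2 : Summable (fun n : ℕ => g n ^ 2 * (1 + (n : ℝ) / N) ^ 2) :=
    Summable.of_nonneg_of_le (fun n => by positivity) h0 hg
  have hR : ∑' n : ℕ, g n ^ 2 * (1 + (n : ℝ) / N) ^ 2 ≤ ∑' n : ℕ, g n ^ 2 * (1 + (n : ℝ)) ^ 4 :=
    h2.tsum_le_tsum h0 hg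
  have hid : ∀ j, ((∑' n : ℕ, la (f j) n * g n : ℝ) : ℂ) =
      ∑' n : ℕ, (g n : ℂ) * (co (f j) n / (Real.sqrt n : ℂ)) := by
    intro j
    rw [Complex.ofReal_tsum]
    apply tsum_congr
    intro n
    unfold la
    have h7 : co (f j) n = ((co (f j) n).re : ℂ) := by
      apply Complex.ext
      · simp
      · simp [new_real (hnew j) n]
    rw [h7]
    push_cast
    rw [Complex.ofReal_re, mul_comm]
  have hsum : ∑ j, om (f j) * (∑' n : ℕ, la (f j) n * g n) ^ 2 =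
      1 / (4 * Real.pi) * ∑ j, (1 / nr (f j) *
        ‖∑' n : ℕ, (g n : ℂ) * (co (f j) n / (Real.sqrt n : ℂ))‖ ^ 2) := by
    rw [Finset.mul_sum]
    refine Finset.sum_congr rfl fun j _ => ?_
    rw [← hid j, Complex.norm_real, Real.norm_eq_abs, sq_abs]
    unfold om
    ring
  rw [hsum]
  have h9 : 1 / (4 * Real.pi) ≤ 1 := by
    have hpi : 3 < Real.pi := Real.pi_gt_three
    rw [div_le_one (by positivity)]; linarith
  have h11 : 0 ≤ 1 / (4 * Real.pi) := by positivity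
  have h12 : 0 ≤ C * ∑' n : ℕ, g n ^ 2 * (1 + (n : ℝ)) ^ 4 :=
    mul_nonneg hC0.le (tsum_nonneg fun n => by positivity)
  calc 1 / (4 * Real.pi) * ∑ j, (1 / nr (f j) *
        ‖∑' n : ℕ, (g n : ℂ) * (co (f j) n / (Real.sqrt n : ℂ))‖ ^ 2)
      ≤ 1 / (4 * Real.pi) * (C * ∑' n : ℕ, g n ^ 2 * (1 + (n : ℝ)) ^ 4) :=
        mul_le_mul_of_nonneg_left (key.trans (mul_le_mul_of_nonneg_left hR hC0.le)) h11
    _ ≤ 1 * (C * ∑' n : ℕ, g n ^ 2 * (1 + (n : ℝ)) ^ 4) := mul_le_mul_of_nonneg_right h9 h12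
    _ = _ := one_mul _

/-- size of the tails -/
theorem ft_tail {u L : ℝ} (hu : 0 < u) {g : ℕ → ℝ} (hg : ∀ n : ℕ, g n = 0 ∨
    (1 ≤ n ∧ L ≤ n * u ∧ |g n| ≤ Real.exp (-(2 * Real.pi * n * u)))) :
    Summable (fun n : ℕ => g n ^ 2 * (1 + (n : ℝ)) ^ 4) ∧
    ∑' n : ℕ, g n ^ 2 * (1 + (n : ℝ)) ^ 4 ≤ Real.exp (-L) * (32 / u ^ 6) := by
  have hS : Summable (fun n : ℕ => 1 / (n : ℝ) ^ 2) :=
    Real.summable_one_div_nat_pow.mpr (by norm_num : 1 < 2)
  have h1 : ∀ n : ℕ, g n ^ 2 * (1 + (n : ℝ)) ^ 4 ≤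
      Real.exp (-L) * (16 / u ^ 6) * (1 / (n : ℝ) ^ 2) := by
    intro n
    rcases hg n with h | ⟨hn, hL, h⟩
    · rw [h]
      simp only [ne_eq, OfNat.ofNat_ne_zero, not_false_eq_true, zero_pow, zero_mul]
      positivity
    · have hpi : 3 < Real.pi := Real.pi_gt_three
      have hn0 : (0 : ℝ) < n := by exact_mod_cast hn
      have h5 : g n ^ 2 ≤ Real.exp (-(2 * Real.pi * n * u)) ^ 2 := by
        rw [← sq_abs]
        exact pow_le_pow_left₀ (abs_nonneg _) h 2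
      have h6 : Real.exp (-(2 * Real.pi * n * u)) ≤ Real.exp (-L) := by
        apply Real.exp_le_exp.mpr
        have : 0 ≤ (n : ℝ) * u := by positivity
        nlinarith
      have h7 := AFT_exp hu hn
      calc g n ^ 2 * (1 + (n : ℝ)) ^ 4
          ≤ Real.exp (-(2 * Real.pi * n * u)) ^ 2 * (1 + (n : ℝ)) ^ 4 :=
            mul_le_mul_of_nonneg_right h5 (by positivity)
        _ = Real.exp (-(2 * Real.pi * n * u)) *
            (Real.exp (-(2 * Real.pi * n * u)) * (1 + (n : ℝ)) ^ 4) := by ring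
        _ ≤ Real.exp (-L) * (16 / u ^ 6 * (1 / (n : ℝ) ^ 2)) := by
            apply mul_le_mul h6 h7 (by positivity) (Real.exp_pos _).le
        _ = _ := by ring
  have h2 : Summable (fun n : ℕ => g n ^ 2 * (1 + (n : ℝ)) ^ 4) :=
    Summable.of_nonneg_of_le (fun n => by positivity) h1 (hS.mul_left _)
  refine ⟨h2, (h2.tsum_le_tsum h1 (hS.mul_left _)).trans ?_⟩
  rw [tsum_mul_left]
  calc Real.exp (-L) * (16 / u ^ 6) * ∑' n : ℕ, 1 / (n : ℝ) ^ 2 ≤
      Real.exp (-L) * (16 / u ^ 6) * 2 := mul_le_mul_of_nonneg_left AFT_sum2 (by positivity)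
    _ = _ := by ring

theorem ft_grow (C : ℝ) (k : ℕ) {a : ℝ} (ha : 0 < a) : ∃ N₀ : ℕ, ∀ N : ℕ, N₀ ≤ N →
    C * (N : ℝ) ^ k * Real.exp (-(N : ℝ) ^ a) ≤ 1 := by
  have h1 : Tendsto (fun N : ℕ => (N : ℝ)) atTop atTop := tendsto_natCast_atTop_atTop
  have h2 : Tendsto (fun N : ℕ => (N : ℝ) ^ a) atTop atTop := (tendsto_rpow_atTop ha).comp h1
  have h3 := (tendsto_rpow_mul_exp_neg_mul_atTop_nhds_zero (k / a) 1 one_pos).comp h2
  have h4 := h3.const_mul C
  rw [mul_zero] at h4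
  obtain ⟨N₀, h7⟩ := eventually_atTop.1 (h4.eventually (gt_mem_nhds one_pos))
  refine ⟨N₀, fun N hN => ?_⟩
  have h8 := h7 N hN
  simp only [Function.comp] at h8
  have h10 : ((N : ℝ) ^ a) ^ ((k : ℝ) / a) = (N : ℝ) ^ k := by
    rw [← Real.rpow_mul (Nat.cast_nonneg N), ← Real.rpow_natCast]
    congr 1
    field_simp
  rw [h10, neg_one_mul] at h8
  rw [mul_assoc]
  exact h8.le

/-- a series is its beginning plus its tail -/
theorem ft_split {F : ℕ → ℝ} (hF : Summable F) (h0 : F 0 = 0) (X : ℕ) :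
    ∑' n, F n = ∑ n ∈ Finset.Icc 1 X, F n + ∑' n, if X < n then F n else 0 := by
  have h4 : ∀ n, F n = (if n ∈ Finset.Icc 1 X then F n else 0) + (if X < n then F n else 0) := by
    intro n
    by_cases hn : n ∈ Finset.Icc 1 X
    · rw [if_pos hn, if_neg (by rw [Finset.mem_Icc] at hn; omega), add_zero]
    · rw [if_neg hn]
      by_cases h : X < n
      · rw [if_pos h, zero_add]
      · rw [if_neg h]
        have : n = 0 := by
          rw [Finset.mem_Icc] at hn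
          omega
        rw [this, h0, add_zero]
  have h5 : Summable (fun n : ℕ => if n ∈ Finset.Icc 1 X then F n else 0) :=
    summable_of_ne_finset_zero (s := Finset.Icc 1 X) (fun n hn => if_neg hn)
  have h6 : Summable (fun n : ℕ => if X < n then F n else 0) := by
    refine (hF.sub h5).congr fun n => ?_
    have := h4 n
    linarith
  calc ∑' n, F n = ∑' n, ((if n ∈ Finset.Icc 1 X then F n else 0) +
        (if X < n then F n else 0)) := tsum_congr h4
    _ = ∑' n, (if n ∈ Finset.Icc 1 X then F n else 0) + ∑' n, (if X < n then F n else 0) :=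
        h5.tsum_add h6
    _ = _ := by
        congr 1
        rw [tsum_eq_sum (s := Finset.Icc 1 X) (fun n hn => if_neg hn)]
        exact Finset.sum_congr rfl fun n hn => if_pos hn

/-- the mean square of a sum of three terms -/
theorem ft_mean {ι : Type} [Fintype ι] {w A B D : ι → ℝ} (hw : ∀ j, 0 ≤ w j) {l a b d : ℝ}
    (hA : ∑ j, w j * A j ^ 2 ≤ a) (hB : ∑ j, w j * B j ^ 2 ≤ b)
    (hD : ∑ j, w j * D j ^ 2 ≤ d) :
    ∑ j, w j * (|A j| + |B j| + l * |D j|) ^ 2 ≤ 3 * a + 3 * b + 3 * l ^ 2 * d := by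
  have h12 : ∀ j, w j * (|A j| + |B j| + l * |D j|) ^ 2 ≤
      3 * (w j * A j ^ 2) + 3 * (w j * B j ^ 2) + 3 * l ^ 2 * (w j * D j ^ 2) := by
    intro j
    have h1 : (|A j| + |B j| + l * |D j|) ^ 2 ≤ 3 * (A j ^ 2 + B j ^ 2 + l ^ 2 * D j ^ 2) := by
      rw [← sq_abs (A j), ← sq_abs (B j), ← sq_abs (D j)]
      generalize |A j| = x
      generalize |B j| = y
      generalize |D j| = z
      nlinarith [sq_nonneg (x - y), sq_nonneg (x - l * z), sq_nonneg (y - l * z)]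
    have h2 := mul_le_mul_of_nonneg_left h1 (hw j)
    linarith
  calc ∑ j, w j * (|A j| + |B j| + l * |D j|) ^ 2 ≤
      ∑ j, (3 * (w j * A j ^ 2) + 3 * (w j * B j ^ 2) + 3 * l ^ 2 * (w j * D j ^ 2)) :=
        Finset.sum_le_sum fun j _ => h12 j
    _ = 3 * ∑ j, w j * A j ^ 2 + 3 * ∑ j, w j * B j ^ 2 + 3 * l ^ 2 * ∑ j, w j * D j ^ 2 := by
        rw [Finset.sum_add_distrib, Finset.sum_add_distrib, Finset.mul_sum, Finset.mul_sum,
          Finset.mul_sum]
    _ ≤ _ := by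
        have h3 := mul_le_mul_of_nonneg_left hD (by positivity : 0 ≤ 3 * l ^ 2)
        linarith

/-- the triangle inequality -/
theorem ft_abs {u A B T S R c l : ℝ} (hc0 : 0 ≤ c) (hc1 : c ≤ 1) (hl : 0 ≤ l)
    (h : u = A + S - T - c * l * (B + R)) : |u| ≤ |A| + l * |B| + (|T| + |S| + l * |R|) := by
  rw [h]
  have h2 := abs_sub (A + S - T) (c * l * (B + R))
  have h3 := abs_sub (A + S) T
  have h4 := abs_add_le A S
  have h5 : |c * l * (B + R)| ≤ l * |B| + l * |R| := by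
    rw [abs_mul, abs_mul, abs_of_nonneg hc0, abs_of_nonneg hl]
    have h6 := abs_add_le B R
    have h7 : c * l ≤ l := mul_le_of_le_one_left hl hc1
    calc c * l * |B + R| ≤ l * |B + R| := mul_le_mul_of_nonneg_right h7 (abs_nonneg _)
      _ ≤ l * (|B| + |R|) := mul_le_mul_of_nonneg_left h6 hl
      _ = _ := by ring
  linarith

/-- the sizes -/
theorem ft_size {C N m EN Em l : ℝ} (hN0 : 0 < N) (hNm : N ≤ m) (hm1 : 1 ≤ m)
    (hC : 0 < C) (hEm : 0 < Em) (hl : l ^ 2 ≤ m)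
    (hg1 : 3 * C * 64 * N ^ 5 * EN ≤ 1) (hg2 : 3 * C * 128 * m ^ 6 * Em ≤ 1) :
    3 * (C * (32 * N ^ 4 * EN)) + 3 * (C * (32 * m ^ 4 * Em)) +
      3 * l ^ 2 * (C * (32 * m ^ 4 * Em)) ≤ 1 / N := by
  have hm0 : 0 < m := by linarith
  have h18 : 3 * (C * (32 * N ^ 4 * EN)) ≤ 1 / 2 / N := by
    rw [le_div_iff₀ hN0]
    have e : 3 * (C * (32 * N ^ 4 * EN)) * N = 1 / 2 * (3 * C * 64 * N ^ 5 * EN) := by ring
    rw [e]
    linarith
  have h0 : 0 ≤ C * (32 * m ^ 4 * Em) := by positivity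
  have h19 : 3 * (C * (32 * m ^ 4 * Em)) + 3 * l ^ 2 * (C * (32 * m ^ 4 * Em)) ≤ 1 / 2 / N := by
    have e1 : 3 * (C * (32 * m ^ 4 * Em)) ≤ 3 * m * (C * (32 * m ^ 4 * Em)) := by
      have := mul_le_mul_of_nonneg_right hm1 h0
      linarith
    have e2 : 3 * l ^ 2 * (C * (32 * m ^ 4 * Em)) ≤ 3 * m * (C * (32 * m ^ 4 * Em)) := by
      have := mul_le_mul_of_nonneg_right hl h0
      linarith
    have e5 : 6 * m * (C * (32 * m ^ 4 * Em)) ≤ 1 / 2 / m := by
      rw [le_div_iff₀ hm0]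
      have e : 6 * m * (C * (32 * m ^ 4 * Em)) * m = 1 / 2 * (3 * C * 128 * m ^ 6 * Em) := by
        ring
      rw [e]
      linarith
    have e6 : 1 / 2 / m ≤ 1 / 2 / N := div_le_div_of_nonneg_left (by norm_num) hN0 hNm
    linarith
  have h20 : (1 : ℝ) / N = 1 / 2 / N + 1 / 2 / N := by ring
  rw [h20]
  linarith

section
variable {q : ℕ} [NeZero q]

theorem ft_val {χ : DirichletCharacter ℂ q} (h : χ ^ 2 = 1) (a : ZMod q) :
    χ a = 0 ∨ χ a = 1 ∨ χ a = -1 := by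
  by_cases ha : IsUnit a
  · right
    have h1 : χ a ^ 2 = 1 := by
      have h2 := congrArg (fun ψ : DirichletCharacter ℂ q => ψ a) h
      simp only [MulChar.pow_apply' _ two_ne_zero, MulChar.one_apply ha] at h2
      exact h2
    have h3 : (χ a - 1) * (χ a + 1) = 0 := by
      have : (χ a - 1) * (χ a + 1) = χ a ^ 2 - 1 := by ring
      rw [this, h1, sub_self]
    rcases mul_eq_zero.1 h3 with h4 | h4
    · exact Or.inl (sub_eq_zero.1 h4)
    · exact Or.inr (eq_neg_of_add_eq_zero_left h4)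
  · exact Or.inl (χ.map_nonunit ha)

theorem ft_re {χ : DirichletCharacter ℂ q} (h : χ ^ 2 = 1) (a : ZMod q) :
    (((χ a).re : ℝ) : ℂ) = χ a := by
  rcases ft_val h a with h1 | h1 | h1 <;> rw [h1] <;> simp

theorem ft_re_le {χ : DirichletCharacter ℂ q} (h : χ ^ 2 = 1) (a : ZMod q) :
    |(χ a).re| ≤ 1 := by
  rcases ft_val h a with h1 | h1 | h1 <;> rw [h1] <;> simp

theorem ft_unit {χ : DirichletCharacter ℂ q} (h : χ ^ 2 = 1) {a : ZMod q} (ha : IsUnit a) :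
    χ a = 1 ∨ χ a = -1 := by
  rcases ft_val h a with h1 | h1 | h1
  · exact absurd h1 (ha.map χ).ne_zero
  · exact Or.inl h1
  · exact Or.inr h1

theorem ft_uu {e : ℝ} (he : e ^ 2 = 1) (x : ℝ) : ∀ k : ℕ, Uu (e * x) k = e ^ k * Uu x k
  | 0 => by simp [Uu]
  | 1 => by simp [Uu]
  | (k + 2) => by
    have h1 : e ^ k * Uu x k = e ^ (k + 2) * Uu x k := by rw [pow_add, he, mul_one]
    rw [Uu, Uu, ft_uu he x (k + 1), ft_uu he x k, h1]
    ring

theorem ft_um {χ : DirichletCharacter ℂ q} (h : χ ^ 2 = 1) {m : ℕ} (hm : 0 < m)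
    (hmq : m.Coprime q) (x : ℕ → ℝ) : Um m (tx χ x) = (χ m).re * Um m x := by
  unfold Um tx
  have h1 : ∀ p ∈ m.primeFactors, Uu ((χ p).re * x p) (m.factorization p) =
      (χ p).re ^ (m.factorization p) * Uu (x p) (m.factorization p) := by
    intro p hp
    refine ft_uu ?_ _ _
    have h2 : p.Coprime q := hmq.coprime_dvd_left (Nat.dvd_of_mem_primeFactors hp)
    rcases ft_unit h ((ZMod.isUnit_iff_coprime p q).2 h2) with h3 | h3 <;> rw [h3] <;> simp
  rw [Finset.prod_congr rfl h1, Finset.prod_mul_distrib]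
  congr 1
  have h2 : ((∏ p ∈ m.primeFactors, (χ p).re ^ (m.factorization p) : ℝ) : ℂ) =
      (((χ m).re : ℝ) : ℂ) := by
    push_cast
    rw [ft_re h]
    conv_rhs => rw [← Nat.prod_factorization_pow_eq_self hm.ne']
    rw [Finsupp.prod, Nat.support_factorization, Nat.cast_prod, map_prod]
    refine Finset.prod_congr rfl fun p _ => ?_
    rw [ft_re h, Nat.cast_pow, map_pow]
  exact_mod_cast h2

theorem ft_zero {χ : DirichletCharacter ℂ q} {m : ℕ} (hm : ¬ m.Coprime q) : (χ m).re = 0 := by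
  have : χ ((m : ℕ) : ZMod q) = 0 := χ.map_nonunit fun h => hm
    ((ZMod.isUnit_iff_coprime m q).1 h)
  rw [this, Complex.zero_re]

theorem ft_primes {N n : ℕ} (hn : 1 ≤ n) (hnN : n < N) :
    n.primeFactors ⊆ Qp q N ↔ n.Coprime q := by
  constructor
  · intro h
    by_contra hne
    obtain ⟨p, hp, hpg⟩ := Nat.exists_prime_and_dvd (fun h => hne h)
    have hpn : p ∣ n := hpg.trans (Nat.gcd_dvd_left _ _)
    have hpq : p ∣ q := hpg.trans (Nat.gcd_dvd_right _ _)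
    have h1 := h (Nat.mem_primeFactors.2 ⟨hp, hpn, by omega⟩)
    exact (Finset.mem_filter.1 h1).2 hpq
  · intro h p hp
    have hpp := Nat.prime_of_mem_primeFactors hp
    have hpn := Nat.dvd_of_mem_primeFactors hp
    have hle := Nat.le_of_dvd hn hpn
    unfold Qp Pr
    rw [Finset.mem_filter, Finset.mem_filter, Finset.mem_range]
    refine ⟨⟨by omega, hpp⟩, fun hpq => ?_⟩
    exact Nat.not_coprime_of_dvd_of_dvd hpp.one_lt hpn hpq h

theorem ft_la {N : ℕ} [Fact N.Prime] {f : S2 N} (hf : IsNew f) {n : ℕ} (hn : 1 ≤ n)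
    (hnN : n < N) : Um n (la f) = la f n := by
  refine um_new hf (new_real hf) hn ?_
  apply Nat.Coprime.symm
  rw [(Fact.out : N.Prime).coprime_iff_not_dvd]
  intro hd
  have := Nat.le_of_dvd (by omega) hd
  omega

/-- the truncated model -/
theorem ft_Sq {N : ℕ} [Fact N.Prime] {f : S2 N} (hf : IsNew f) {χ : DirichletCharacter ℂ q}
    (hχ : χ ^ 2 = 1) (i : ℕ) {m : ℕ} (hX : X0 m < N) :
    Sq i (Qp q N) m (tx χ (la f)) = ∑ n ∈ Finset.Icc 1 (X0 m), an χ f n * wi i m n := by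
  unfold Sq
  rw [Finset.sum_filter]
  refine Finset.sum_congr rfl fun n hn => ?_
  obtain ⟨hn1, hn2⟩ := Finset.mem_Icc.1 hn
  have hp := ft_primes (q := q) hn1 (by omega : n < N)
  unfold an
  by_cases hc : n.Coprime q
  · rw [if_pos (hp.2 hc), ft_um hχ hn1 hc, ft_la hf hn1 (by omega)]
    ring
  · rw [if_neg (fun h => hc (hp.1 h)), ft_zero hc]
    ring

/-- the truncated twist -/
theorem ft_ui {N : ℕ} [Fact N.Prime] {f : S2 N} (hf : IsNew f) (χ : DirichletCharacter ℂ q)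
    (i : ℕ) (hA : Aa q N < N) :
    ui χ i f = ∑ n ∈ Finset.Icc 1 (Aa q N), an χ f n * V i (n / Yy q N) := by
  unfold ui MX
  refine Finset.sum_congr rfl fun n hn => ?_
  obtain ⟨hn1, hn2⟩ := Finset.mem_Icc.1 hn
  unfold xv an
  rw [if_pos ⟨hn1, hn2⟩, ft_la hf hn1 (by omega)]
  ring

end

/-- the truncated twist is the value of the truncated model, up to an error which is small in mean
square. -/
theorem ui_harm (i : ℕ) : ∃ N₀ : ℕ, ∀ (N : ℕ) [Fact N.Prime], N₀ ≤ N → ∀ (q : ℕ) [NeZero q]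
    (χ : DirichletCharacter ℂ q), PQ χ → (q : ℝ) ≤ (N : ℝ) ^ dl → Sgn χ N i →
    ∀ {ι : Type} [Fintype ι] (f : ι → S2 N), Function.Injective f →
    (∀ j, IsNew (f j) ∧ co (f j) N = 1) →
    ∃ r : ι → ℝ, (∀ j, 0 ≤ r j) ∧ ∑ j, om (f j) * r j ^ 2 ≤ 1 / N ∧
      ∀ j, |ui χ i (f j)| ≤ |Sq i (Qp q N) (mN q N) (tx χ (la (f j)))| +
        Real.log (mN q N) ^ i * |Sq 0 (Qp q N) (mN q N) (tx χ (la (f j)))| + r j := by
  obtain ⟨C, hC, hfam⟩ := fam_tail
  obtain ⟨Ci, -, hwi⟩ := wi_bounds i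
  obtain ⟨C0, -, hw0⟩ := wi_bounds 0
  obtain ⟨CV, -, hV1, hV2, -⟩ := Pool.Agent.LG.v_facts_pr i
  obtain ⟨N₁, hN₁⟩ := Pool.Agent.LX.as_par
  obtain ⟨N₂, hN₂⟩ := ft_grow (3 * C * 64) 5 (a := nu / 100)
    (by have := Pool.Agent.LX.nu_pos; positivity)
  obtain ⟨N₃, hN₃⟩ := ft_grow (3 * C * 128) 6 (a := 1 / 20) (by norm_num)
  obtain ⟨N₄, hN₄⟩ := Pool.Agent.LX.as_grow 1 (2 * i) (a := 1) one_pos
  refine ⟨N₁ + N₂ + N₃ + N₄ + 3, ?_⟩
  intro N _ hN q _ χ hχ hqN hS ι _ f hinj hf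
  have hN1 : (1 : ℝ) ≤ N := by exact_mod_cast (by omega : 1 ≤ N)
  have hN1' : (1 : ℝ) < N := by exact_mod_cast (by omega : 1 < N)
  have hN0 : (0 : ℝ) < N := by linarith
  have hq1 : 1 ≤ q := Nat.one_le_iff_ne_zero.mpr (NeZero.ne q)
  have hq1R : (1 : ℝ) ≤ q := by exact_mod_cast hq1
  obtain ⟨hpar, -, hA, hA1⟩ := hN₁ N (by omega) q hq1 hqN
  have hY1 := Pool.Agent.LX.as_Y hq1 (by omega : 1 ≤ N)
  have hY0 : 0 < Yy q N := by linarith
  have hAN : Aa q N < N := by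
    have h1 : (N : ℝ) ^ (1 / 2 + nu / 20) < (N : ℝ) ^ (1 : ℝ) := by
      apply Real.rpow_lt_rpow_of_exponent_lt hN1'
      unfold nu
      norm_num
    rw [Real.rpow_one] at h1
    exact_mod_cast hA.trans_lt h1
  have hqltN : q < N := by
    have h1 : (N : ℝ) ^ dl < (N : ℝ) ^ (1 : ℝ) := by
      apply Real.rpow_lt_rpow_of_exponent_lt hN1'
      unfold dl
      norm_num
    rw [Real.rpow_one] at h1
    exact_mod_cast hqN.trans_lt h1
  set m : ℕ := mN q N with hm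
  have hNm : N ≤ m := by
    rw [hm]
    unfold mN
    exact Nat.le_mul_of_pos_right N (pow_pos (by omega) 2)
  have hm3 : 3 ≤ m := by omega
  have hNmR : (N : ℝ) ≤ m := by exact_mod_cast hNm
  have hm0 : (0 : ℝ) < m := by linarith
  have hm1 : (1 : ℝ) ≤ m := by linarith
  have hXm : X0 m < N := by
    have h1 : (m : ℝ) ≤ (N : ℝ) ^ (1 + 2 * dl) := by
      have e1 : (m : ℝ) = N * (q : ℝ) ^ 2 := by rw [hm]; unfold mN; push_cast; ring
      have e2 : (q : ℝ) ^ 2 ≤ ((N : ℝ) ^ dl) ^ 2 := pow_le_pow_left₀ (by linarith) hqN 2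
      have e3 : ((N : ℝ) ^ dl) ^ 2 = (N : ℝ) ^ (2 * dl) := by
        rw [← Real.rpow_natCast, ← Real.rpow_mul hN0.le]
        congr 1
        push_cast
        ring
      rw [e1, Real.rpow_add hN0, Real.rpow_one]
      exact mul_le_mul_of_nonneg_left (e2.trans e3.le) hN0.le
    have h2 : (X0 m : ℝ) < N := by
      calc (X0 m : ℝ) ≤ (m : ℝ) ^ (3 / 5 : ℝ) := Nat.floor_le (Real.rpow_nonneg hm0.le _)
        _ ≤ ((N : ℝ) ^ (1 + 2 * dl)) ^ (3 / 5 : ℝ) := Real.rpow_le_rpow hm0.le h1 (by norm_num)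
        _ = (N : ℝ) ^ ((1 + 2 * dl) * (3 / 5)) := by rw [← Real.rpow_mul hN0.le]
        _ < (N : ℝ) ^ (1 : ℝ) := by
            apply Real.rpow_lt_rpow_of_exponent_lt hN1'
            unfold dl
            norm_num
        _ = N := Real.rpow_one _
    exact_mod_cast h2
  have hlm : 0 ≤ Real.log m := Real.log_nonneg hm1
  -- the tails
  set gV : ℕ → ℝ := fun n => if Aa q N < n then (χ n).re * V i (n / Yy q N) / Real.sqrt n else 0
    with hgV
  set gw : ℕ → ℕ → ℝ := fun k n => if X0 m < n then (χ n).re * wi k m n / Real.sqrt n else 0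
    with hgw
  have hVt : Summable (fun n : ℕ => gV n ^ 2 * (1 + (n : ℝ)) ^ 4) ∧
      ∑' n : ℕ, gV n ^ 2 * (1 + (n : ℝ)) ^ 4 ≤
        Real.exp (-(N : ℝ) ^ (nu / 100)) * (32 / (1 / Yy q N) ^ 6) := by
    refine ft_tail (by positivity) fun n => ?_
    rw [hgV]
    dsimp only
    split_ifs with h
    · right
      have hn1 : 1 ≤ n := by omega
      have hn1R : (1 : ℝ) ≤ n := by exact_mod_cast hn1
      have hAn : Yy q N * (N : ℝ) ^ (nu / 100) ≤ n := by
        have h1 : Yy q N * (N : ℝ) ^ (nu / 100) ≤ (Aa q N : ℝ) := Nat.le_ceil _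
        have h2 : (Aa q N : ℝ) ≤ n := by exact_mod_cast h.le
        linarith
      have hnY : (N : ℝ) ^ (nu / 100) ≤ n / Yy q N := by
        rw [le_div_iff₀ hY0, mul_comm]
        exact hAn
      have h1N : 1 ≤ (N : ℝ) ^ (nu / 100) := by
        apply Real.one_le_rpow hN1
        have := Pool.Agent.LX.nu_pos
        positivity
      have hnY1 : 1 ≤ n / Yy q N := h1N.trans hnY
      refine ⟨hn1, ?_, ?_⟩
      · rw [mul_one_div]
        exact hnY
      · have h3 := hV2 _ hnY1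
        have h4 := (hV1 _ (by linarith : (0 : ℝ) < n / Yy q N)).1
        have h5 : (1 : ℝ) ≤ Real.sqrt n := by
          rw [Real.one_le_sqrt]
          exact hn1R
        rw [abs_div, abs_mul, abs_of_nonneg h4, abs_of_nonneg (Real.sqrt_nonneg _)]
        have h6 : -(2 * Real.pi * (n : ℝ) * (1 / Yy q N)) = -(2 * Real.pi * (n / Yy q N)) := by
          ring
        rw [h6]
        calc |(χ n).re| * V i (n / Yy q N) / Real.sqrt n ≤ |(χ n).re| * V i (n / Yy q N) :=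
              div_le_self (by positivity) h5
          _ ≤ 1 * V i (n / Yy q N) := mul_le_mul_of_nonneg_right (ft_re_le hχ.sq _) h4
          _ = V i (n / Yy q N) := one_mul _
          _ ≤ _ := h3
    · left
      rfl
  have hwt : ∀ k : ℕ, (∃ Ck : ℝ, ∀ m n : ℕ, 3 ≤ m → 1 ≤ n →
      0 ≤ wi k m n ∧ wi k m n ≤ Ck * (1 + Real.log m + Real.log n) ^ k ∧
      ((m : ℝ) ^ (11 / 20 : ℝ) ≤ n →
        wi k m n ≤ Real.exp (-2 * Real.pi * n * (m : ℝ) ^ (-(11 / 20) : ℝ)))) →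
      Summable (fun n : ℕ => gw k n ^ 2 * (1 + (n : ℝ)) ^ 4) ∧
      ∑' n : ℕ, gw k n ^ 2 * (1 + (n : ℝ)) ^ 4 ≤
        Real.exp (-(m : ℝ) ^ (1 / 20 : ℝ)) * (32 / ((m : ℝ) ^ (-(11 / 20) : ℝ)) ^ 6) := by
    rintro k ⟨Ck, hk⟩
    refine ft_tail (Real.rpow_pos_of_pos hm0 _) fun n => ?_
    rw [hgw]
    dsimp only
    split_ifs with h
    · right
      have hn1 : 1 ≤ n := by omega
      have hn1R : (1 : ℝ) ≤ n := by exact_mod_cast hn1
      have hX : (m : ℝ) ^ (3 / 5 : ℝ) < n := by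
        have h2 : (m : ℝ) ^ (3 / 5 : ℝ) < (X0 m : ℝ) + 1 := Nat.lt_floor_add_one _
        have h3 : ((X0 m : ℝ) + 1) ≤ n := by exact_mod_cast h
        linarith
      have hX2 : (m : ℝ) ^ (11 / 20 : ℝ) ≤ n := by
        refine le_trans ?_ hX.le
        exact Real.rpow_le_rpow_of_exponent_le hm1 (by norm_num)
      obtain ⟨h4, -, h5⟩ := hk m n hm3 hn1
      have h5 := h5 hX2
      refine ⟨hn1, ?_, ?_⟩
      · have e4 : (m : ℝ) ^ (1 / 20 : ℝ) = (m : ℝ) ^ (3 / 5 : ℝ) * (m : ℝ) ^ (-(11 / 20) : ℝ) := by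
          rw [← Real.rpow_add hm0]
          norm_num
        rw [e4]
        exact mul_le_mul_of_nonneg_right hX.le (Real.rpow_nonneg hm0.le _)
      · have h6 : (1 : ℝ) ≤ Real.sqrt n := by
          rw [Real.one_le_sqrt]
          exact hn1R
        rw [abs_div, abs_mul, abs_of_nonneg h4, abs_of_nonneg (Real.sqrt_nonneg _)]
        have h7 : -(2 * Real.pi * (n : ℝ) * (m : ℝ) ^ (-(11 / 20) : ℝ)) =
            -2 * Real.pi * n * (m : ℝ) ^ (-(11 / 20) : ℝ) := by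
          ring
        rw [h7]
        calc |(χ n).re| * wi k m n / Real.sqrt n ≤ |(χ n).re| * wi k m n :=
              div_le_self (by positivity) h6
          _ ≤ 1 * wi k m n := mul_le_mul_of_nonneg_right (ft_re_le hχ.sq _) h4
          _ = wi k m n := one_mul _
          _ ≤ _ := h5
    · left
      rfl
  obtain ⟨hwi1, hwi2⟩ := hwt i ⟨Ci, hwi⟩
  obtain ⟨hw01, hw02⟩ := hwt 0 ⟨C0, hw0⟩
  obtain ⟨hV3, hV4⟩ := hVt
  set TV : ι → ℝ := fun j => ∑' n : ℕ, la (f j) n * gV n with hTV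
  set Tw : ℕ → ι → ℝ := fun k j => ∑' n : ℕ, la (f j) n * gw k n with hTw
  have hsV : ∀ j, ∑' n : ℕ, an χ (f j) n * V i (n / Yy q N) = ui χ i (f j) + TV j := by
    intro j
    obtain ⟨hsum, -, -⟩ := sym_eq (hf j).1 (hf j).2 hχ hqltN
    have hz : an χ (f j) 0 * V i (((0 : ℕ) : ℝ) / Yy q N) = 0 := by
      unfold an
      simp
    rw [ft_split (hsum i).1 hz (Aa q N), ft_ui (hf j).1 χ i hAN]
    congr 1
    rw [hTV]
    dsimp only
    refine tsum_congr fun n => ?_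
    rw [hgV]
    dsimp only
    unfold an
    split_ifs
    · ring
    · ring
  have hsw : ∀ k j, ∑' n : ℕ, an χ (f j) n * wi k m n =
      Sq k (Qp q N) m (tx χ (la (f j))) + Tw k j := by
    intro k j
    obtain ⟨hsum, -, -⟩ := sym_eq (hf j).1 (hf j).2 hχ hqltN
    have hz : an χ (f j) 0 * wi k m 0 = 0 := by
      unfold an
      simp
    rw [ft_split (hsum k).2 hz (X0 m), ft_Sq (hf j).1 hχ.sq k hXm]
    congr 1
    rw [hTw]
    dsimp only
    refine tsum_congr fun n => ?_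
    rw [hgw]
    dsimp only
    unfold an
    split_ifs
    · ring
    · ring
  refine ⟨fun j => |TV j| + |Tw i j| + Real.log m ^ i * |Tw 0 j|, fun j => by positivity, ?_, ?_⟩
  · -- the mean square
    have hV5 := hfam N f hinj (fun j => (hf j).1) gV hV3
    have hwi5 := hfam N f hinj (fun j => (hf j).1) (gw i) hwi1
    have hw05 := hfam N f hinj (fun j => (hf j).1) (gw 0) hw01
    have hom : ∀ j, 0 ≤ om (f j) := fun j => by
      unfold om
      have := nr_pos (new_ne_zero (hf j).1)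
      positivity
    have hb1 : ∑' n : ℕ, gV n ^ 2 * (1 + (n : ℝ)) ^ 4 ≤
        32 * (N : ℝ) ^ 4 * Real.exp (-(N : ℝ) ^ (nu / 100)) := by
      refine hV4.trans ?_
      have h1 : 32 / (1 / Yy q N) ^ 6 = 32 * Yy q N ^ 6 := by
        rw [one_div, inv_pow, div_inv_eq_mul]
      have hYle : Yy q N ≤ (N : ℝ) ^ (1 / 2 + dl) := by
        unfold Yy
        rw [Real.rpow_add hN0, ← Real.sqrt_eq_rpow, mul_comm]
        exact mul_le_mul_of_nonneg_left hqN (Real.sqrt_nonneg _)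
      have h2 : Yy q N ^ 6 ≤ (N : ℝ) ^ 4 := by
        calc Yy q N ^ 6 ≤ ((N : ℝ) ^ (1 / 2 + dl)) ^ 6 := pow_le_pow_left₀ hY0.le hYle 6
          _ = (N : ℝ) ^ ((1 / 2 + dl) * 6) := by
              rw [← Real.rpow_natCast, ← Real.rpow_mul hN0.le]
              norm_num
          _ ≤ (N : ℝ) ^ (4 : ℝ) := by
              apply Real.rpow_le_rpow_of_exponent_le hN1
              unfold dl
              norm_num
          _ = (N : ℝ) ^ 4 := by norm_num
      rw [h1]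
      have h3 : 0 < Real.exp (-(N : ℝ) ^ (nu / 100)) := Real.exp_pos _
      nlinarith
    have hb2 : Real.exp (-(m : ℝ) ^ (1 / 20 : ℝ)) * (32 / ((m : ℝ) ^ (-(11 / 20) : ℝ)) ^ 6) ≤
        32 * (m : ℝ) ^ 4 * Real.exp (-(m : ℝ) ^ (1 / 20 : ℝ)) := by
      have h9 : ((m : ℝ) ^ (-(11 / 20) : ℝ)) ^ 6 = (m : ℝ) ^ (-(33 / 10) : ℝ) := by
        rw [← Real.rpow_natCast, ← Real.rpow_mul hm0.le]
        norm_num
      have h10 : 32 / ((m : ℝ) ^ (-(11 / 20) : ℝ)) ^ 6 ≤ 32 * (m : ℝ) ^ 4 := by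
        rw [h9, Real.rpow_neg hm0.le, div_eq_mul_inv, inv_inv]
        apply mul_le_mul_of_nonneg_left _ (by norm_num)
        have h11 : (m : ℝ) ^ 4 = (m : ℝ) ^ (4 : ℝ) := by norm_num
        rw [h11]
        exact Real.rpow_le_rpow_of_exponent_le hm1 (by norm_num)
      have h3 : 0 < Real.exp (-(m : ℝ) ^ (1 / 20 : ℝ)) := Real.exp_pos _
      nlinarith
    have hlog : (Real.log m ^ i) ^ 2 ≤ m := by
      have h1 := hN₄ m (by omega)
      rw [one_mul, Real.rpow_one] at h1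
      refine le_trans ?_ h1
      rw [← pow_mul, mul_comm i 2]
      exact pow_le_pow_left₀ hlm (by linarith) _
    have h14 : ∑ j, om (f j) * TV j ^ 2 ≤
        C * (32 * (N : ℝ) ^ 4 * Real.exp (-(N : ℝ) ^ (nu / 100))) :=
      hV5.trans (mul_le_mul_of_nonneg_left hb1 hC.le)
    have h15 : ∑ j, om (f j) * Tw i j ^ 2 ≤
        C * (32 * (m : ℝ) ^ 4 * Real.exp (-(m : ℝ) ^ (1 / 20 : ℝ))) :=
      hwi5.trans (mul_le_mul_of_nonneg_left (hwi2.trans hb2) hC.le)
    have h16 : ∑ j, om (f j) * Tw 0 j ^ 2 ≤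
        C * (32 * (m : ℝ) ^ 4 * Real.exp (-(m : ℝ) ^ (1 / 20 : ℝ))) :=
      hw05.trans (mul_le_mul_of_nonneg_left (hw02.trans hb2) hC.le)
    exact (ft_mean (l := Real.log m ^ i) hom h14 h15 h16).trans
      (ft_size hN0 hNmR hm1 hC (Real.exp_pos _) hlog (hN₂ N (by omega)) (hN₃ m (by omega)))
  · intro j
    obtain ⟨-, hp, hn⟩ := sym_eq (hf j).1 (hf j).2 hχ hqltN
    have e1 := hsV j
    have e2 := hsw i j
    have e3 := hsw 0 j
    have hl0 : 0 ≤ Real.log m ^ i := by positivity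
    -- the simple cases
    have hsimple : ∑' n : ℕ, an χ (f j) n * V i (n / Yy q N) =
        ∑' n : ℕ, an χ (f j) n * wi i m n →
        |ui χ i (f j)| ≤ |Sq i (Qp q N) m (tx χ (la (f j)))| +
          Real.log m ^ i * |Sq 0 (Qp q N) m (tx χ (la (f j)))| +
            (|TV j| + |Tw i j| + Real.log m ^ i * |Tw 0 j|) := by
      intro h
      refine ft_abs (c := 0) le_rfl zero_le_one hl0 ?_
      rw [e1, e2] at h
      rw [zero_mul, zero_mul, sub_zero]
      exact eq_sub_of_add_eq h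
    rcases hS with ⟨hχN, hi⟩ | ⟨hχN, hi⟩
    · rcases hi with hi | hi
      · subst hi
        exact hsimple (hp hχN).1
      · subst hi
        have h := (hp hχN).2
        rw [← hm] at h
        rw [e1, e2, e3] at h
        obtain ⟨hc0, hc1⟩ := cv_bounds
        refine ft_abs (c := cv) hc0 hc1 hl0 ?_
        rw [sub_right_comm]
        exact eq_sub_of_add_eq h
    · subst hi
      exact hsimple (hn hχN)

end Pool.Agent.TU
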