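import Pool.Agent.Lib_helper84.TU.UH
import Pool.Agent.Lib_helper68.LEV.NAT

/-! T12, part III: natural weights -/

set_option autoImplicit false

namespace Pool.Agent.TU

open Pool.Agent.LEV Pool.Agent.LVB
open Pool.Agent.LK (PQ V)
open Pool.Agent.LX (dl)
open Complex MeasureTheory Filter Topology ProbabilityTheory

theorem na_loglog (B : ℝ) : ∃ N₀ : ℕ, ∀ N : ℕ, N₀ ≤ N → B ≤ Real.log (Real.log N) := by
  have h : Tendsto (fun N : ℕ => Real.log (Real.log N)) atTop atTop :=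
    (Real.tendsto_log_atTop.comp Real.tendsto_log_atTop).comp tendsto_natCast_atTop_atTop
  exact eventually_atTop.1 (h.eventually_ge_atTop B)

theorem na_log {N : ℕ} (h : 0 ≤ Real.log (Real.log N)) (hN : 3 ≤ N) : 1 ≤ Real.log N := by
  by_contra hc
  push Not at hc
  have h1 : (1 : ℝ) < N := by exact_mod_cast (by omega : 1 < N)
  have h0 : 0 < Real.log N := Real.log_pos h1
  have := Real.log_neg h0 hc
  linarith

theorem na_bad {q : ℕ} [NeZero q] {χ : DirichletCharacter ℂ q} {i : ℕ} {ε ε' : ℝ} (h : ε' ≤ ε)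
    {N : ℕ} {f : S2 N} (hll : 0 ≤ Real.log (Real.log N)) (hl : 1 ≤ Real.log N)
    (hb : Bad χ i ε f) : Bad χ i ε' f := by
  rcases hb with hb | hb
  · left
    refine lt_of_le_of_lt ?_ hb
    apply mul_le_mul_of_nonneg_left _ (Real.rpow_nonneg (by linarith) _)
    apply Real.exp_le_exp.2
    have := mul_le_mul_of_nonneg_right h (Real.sqrt_nonneg (Real.log (Real.log N)))
    linarith
  · right
    exact lt_of_le_of_lt (mul_le_mul_of_nonneg_right h hll) hb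

/-- helper14: from `ub_harm` and `nat_of_harm` (`om f = 1 / (4 π nr f)`) -/
theorem ub_nat (i : ℕ) {ε : ℝ} (hε : 0 < ε) : ∃ N₀ : ℕ, ∀ (N : ℕ) [Fact N.Prime], N₀ ≤ N →
    ∀ (q : ℕ) [NeZero q] (χ : DirichletCharacter ℂ q), PQ χ → (q : ℝ) ≤ (N : ℝ) ^ dl → Sgn χ N i →
    ({f : S2 N | (IsNew f ∧ co f N = 1) ∧ Bad χ i ε f}.ncard : ℝ) ≤ ε * N := by
  obtain ⟨C, hC, hnat⟩ := nat_of_harm
  obtain ⟨Cf, -, hfin⟩ := new_fin
  have hpi : 0 < 4 * Real.pi := by positivity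
  have hε2 : 0 < ε ^ 2 / (4 * Real.pi * C ^ 2) := by positivity
  obtain ⟨N₁, hN₁⟩ := ub_harm i (lt_min hε hε2)
  obtain ⟨N₂, hN₂⟩ := na_loglog 0
  refine ⟨N₁ + N₂ + 3, ?_⟩
  intro N _ hN q _ χ hχ hq hS
  have hll := hN₂ N (by omega)
  have hl := na_log hll (by omega)
  have hN0 : (0 : ℝ) ≤ N := Nat.cast_nonneg N
  have hTfin : {f : S2 N | (IsNew f ∧ co f N = 1) ∧ Bad χ i ε f}.Finite :=
    (hfin N).1.subset fun f hf => hf.1.1
  set T := hTfin.toFinset with hT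
  have hmem : ∀ f ∈ T, (IsNew f ∧ co f N = 1) ∧ Bad χ i ε f :=
    fun f hf => hTfin.mem_toFinset.1 hf
  classical
  have h1 := hN₁ N (by omega) q χ hχ hq hS (ι := T) (fun j => (j : S2 N)) Subtype.val_injective
    (fun j => (hmem j j.2).1) Finset.univ
    (fun j _ => na_bad (min_le_left _ _) hll hl (hmem j j.2).2)
  have h2 := hnat N (ι := T) (fun j => (j : S2 N)) Subtype.val_injective
    (fun j => (hmem j j.2).1.1) Finset.univ
  rw [Finset.card_univ, Fintype.card_coe] at h2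
  have h3 : ∑ j : T, 1 / nr (j : S2 N) = 4 * Real.pi * ∑ j : T, om (j : S2 N) := by
    rw [Finset.mul_sum]
    refine Finset.sum_congr rfl fun j _ => ?_
    unfold om
    have h4 := nr_pos (new_ne_zero (hmem j j.2).1.1)
    field_simp
  rw [Set.ncard_eq_toFinset_card _ hTfin]
  refine h2.trans ?_
  rw [h3]
  have h4 : 4 * Real.pi * ∑ j : T, om (j : S2 N) ≤ (ε / C) ^ 2 := by
    have h5 : ∑ j : T, om (j : S2 N) ≤ ε ^ 2 / (4 * Real.pi * C ^ 2) :=
      h1.trans (min_le_right _ _)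
    calc 4 * Real.pi * ∑ j : T, om (j : S2 N) ≤
        4 * Real.pi * (ε ^ 2 / (4 * Real.pi * C ^ 2)) := mul_le_mul_of_nonneg_left h5 hpi.le
      _ = (ε / C) ^ 2 := by
          field_simp
  have h6 : Real.sqrt (4 * Real.pi * ∑ j : T, om (j : S2 N)) ≤ ε / C := by
    rw [← Real.sqrt_sq (by positivity : 0 ≤ ε / C)]
    exact Real.sqrt_le_sqrt h4
  calc C * N * Real.sqrt (4 * Real.pi * ∑ j : T, om (j : S2 N)) ≤ C * N * (ε / C) :=
        mul_le_mul_of_nonneg_left h6 (by positivity)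
    _ = ε * N := by field_simp

/-- helper14: from `ub_nat` with `min ε (δ / 2)` -/
theorem ub_pow (i : ℕ) {ε δ : ℝ} (hε : 0 < ε) (hδ : 0 < δ) : ∃ N₀ : ℕ,
    ∀ (N : ℕ) [Fact N.Prime], N₀ ≤ N → ∀ (q : ℕ) [NeZero q] (χ : DirichletCharacter ℂ q), PQ χ →
    (q : ℝ) ≤ (N : ℝ) ^ dl → Sgn χ N i →
    ({f : S2 N | (IsNew f ∧ co f N = 1) ∧
      Real.log N ^ ((i : ℝ) - 1 / 2 + δ) < |ui χ i f|}.ncard : ℝ) ≤ ε * N := by
  obtain ⟨Cf, -, hfin⟩ := new_fin
  have hδ2 : 0 < δ / 2 := by positivity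
  set ε' := min ε (δ / 2) with hε'
  have hε'0 : 0 < ε' := lt_min hε hδ2
  obtain ⟨N₁, hN₁⟩ := ub_nat i hε'0
  obtain ⟨N₂, hN₂⟩ := na_loglog 1
  refine ⟨N₁ + N₂ + 3, ?_⟩
  intro N _ hN q _ χ hχ hq hS
  have hll := hN₂ N (by omega)
  have hl := na_log (by linarith) (by omega : 3 ≤ N)
  have hl0 : 0 < Real.log N := by linarith
  have hsub : {f : S2 N | (IsNew f ∧ co f N = 1) ∧
      Real.log N ^ ((i : ℝ) - 1 / 2 + δ) < |ui χ i f|} ⊆
      {f : S2 N | (IsNew f ∧ co f N = 1) ∧ Bad χ i ε' f} := by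
    rintro f ⟨h1, h2⟩
    refine ⟨h1, ?_⟩
    by_contra hb
    unfold Bad at hb
    push Not at hb
    obtain ⟨hb1, hb2⟩ := hb
    have h3 : Real.sqrt (Real.log (Real.log N)) ≤ Real.log (Real.log N) := by
      rw [Real.sqrt_le_left (by linarith)]
      nlinarith
    have h4 : PX χ f + ε' * Real.sqrt (Real.log (Real.log N)) ≤ δ * Real.log (Real.log N) := by
      have h5 := (le_abs_self (PX χ f)).trans hb2
      have h6 := mul_le_mul_of_nonneg_left h3 hε'0.le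
      have h7 : ε' ≤ δ / 2 := min_le_right _ _
      nlinarith
    have h5 : |ui χ i f| ≤ Real.log N ^ ((i : ℝ) - 1 / 2 + δ) := by
      refine hb1.trans ?_
      rw [Real.rpow_add hl0]
      apply mul_le_mul_of_nonneg_left _ (Real.rpow_nonneg hl0.le _)
      rw [Real.rpow_def_of_pos hl0 δ]
      apply Real.exp_le_exp.2
      linarith
    linarith
  have hTfin : {f : S2 N | (IsNew f ∧ co f N = 1) ∧ Bad χ i ε' f}.Finite :=
    (hfin N).1.subset fun f hf => hf.1.1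
  have h8 : ({f : S2 N | (IsNew f ∧ co f N = 1) ∧
      Real.log N ^ ((i : ℝ) - 1 / 2 + δ) < |ui χ i f|}.ncard : ℝ) ≤
      ({f : S2 N | (IsNew f ∧ co f N = 1) ∧ Bad χ i ε' f}.ncard : ℝ) := by
    exact_mod_cast Set.ncard_le_ncard hsub hTfin
  refine h8.trans ((hN₁ N (by omega) q χ hχ hq hS).trans ?_)
  exact mul_le_mul_of_nonneg_right (min_le_left _ _) (Nat.cast_nonneg N)

end Pool.Agent.TU
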